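import Mathlib
import Pool.Agent.W890.SF.All2

set_option autoImplicit false

namespace Pool.Agent.Results.MP_b96e21_co.ExactThreshold

open Finset

/-- every edge of the hypergraph `H` on the vertex set `Fin n` has exactly `k` vertices -/
def IsUniform {n : ℕ} (k : ℕ) (H : Finset (Finset (Fin n))) : Prop := ∀ e ∈ H, e.card = k

/-- degree of the vertex `v`: the number of edges containing `v` -/
def degree {n : ℕ} (H : Finset (Finset (Fin n))) (v : Fin n) : ℕ :=
  (H.filter (fun e => v ∈ e)).card

/-- `H` has a perfect matching: pairwise disjoint edges covering every vertex -/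
def HasPerfectMatching {n : ℕ} (H : Finset (Finset (Fin n))) : Prop :=
  ∃ M : Finset (Finset (Fin n)), M ⊆ H ∧ (∀ e ∈ M, ∀ e' ∈ M, e ≠ e' → Disjoint e e') ∧
    ∀ v : Fin n, ∃ e ∈ M, v ∈ e

/-- `m1 k n`: the smallest `d` such that every `k`-uniform hypergraph on `n` vertices with
minimum vertex degree at least `d` has a perfect matching -/
noncomputable def m1 (k n : ℕ) : ℕ :=
  sInf {d : ℕ | ∀ H : Finset (Finset (Fin n)), IsUniform k H → (∀ v, d ≤ degree H v) →
    HasPerfectMatching H}

/-- For every `k ≥ 3` and all sufficiently large `n` divisible by `k`,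
`m1 k n = C(n-1, k-1) - C(n - n/k, k-1) + 1`. (The difference of natural numbers is the true
difference.) -/
theorem result (k : ℕ) (hk : 3 ≤ k) :
    ∃ n0 : ℕ, ∀ n : ℕ, n0 ≤ n → k ∣ n →
      (n - n / k).choose (k - 1) ≤ (n - 1).choose (k - 1) ∧
      m1 k n = (n - 1).choose (k - 1) - (n - n / k).choose (k - 1) + 1 := by
  obtain ⟨n0, h0⟩ := Pool.Agent.W890.SF.R1.main Pool.Agent.W890.SF.t_PMU Pool.Agent.W890.SF.t_PML k hk
  refine ⟨max n0 k, fun n hn hkn => ⟨?_, h0 n (le_trans (le_max_left _ _) hn) hkn⟩⟩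
  apply Nat.choose_le_choose
  have hkn' : k ≤ n := le_trans (le_max_right _ _) hn
  have : 1 ≤ n / k := (Nat.one_le_div_iff (by omega)).2 hkn'
  omega

end Pool.Agent.Results.MP_b96e21_co.ExactThreshold
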